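import Pool.Agent.Helper69.NW.NUM

set_option autoImplicit false

namespace Pool.Agent.Helper69.NW

open Pool.Agent.Helper52.Wq2 Pool.Agent.Helper61.NW
open scoped Nat

universe u

variable {Γ : Type u} [Group Γ] {ε : Γ →* ℤˣ} {h : Γ → ℤ} {S : Set Γ}

theorem un_cases (g : Γ) : ε g = 1 ∨ ε g = -1 := Int.units_eq_one_or _

/-- The successor on the lines. -/
noncomputable def psi (ε : Γ →* ℤˣ) (p q : Γ) (hpq : ε p = ε q) : Equiv.Perm Γ where
  toFun g := if ε g = 1 then g * p else g * q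
  invFun g := if ε g * ε p = 1 then g * p⁻¹ else g * q⁻¹
  left_inv g := by
    show (if ε (if ε g = 1 then g * p else g * q) * ε p = 1 then
      (if ε g = 1 then g * p else g * q) * p⁻¹ else (if ε g = 1 then g * p else g * q) * q⁻¹) = g
    rcases un_cases (ε := ε) g with h1 | h1
    · rw [if_pos h1, if_pos (by rw [map_mul, h1, one_mul, Int.units_mul_self])]
      rw [mul_inv_cancel_right]
    · have h2 : ¬ (ε g = 1) := by rw [h1]; decide
      rw [if_neg h2, if_neg (by
        rw [map_mul, h1, hpq, mul_assoc, Int.units_mul_self]; decide)]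
      rw [mul_inv_cancel_right]
  right_inv g := by
    show (if ε (if ε g * ε p = 1 then g * p⁻¹ else g * q⁻¹) = 1 then
      (if ε g * ε p = 1 then g * p⁻¹ else g * q⁻¹) * p else
      (if ε g * ε p = 1 then g * p⁻¹ else g * q⁻¹) * q) = g
    by_cases h1 : ε g * ε p = 1
    · rw [if_pos h1, if_pos (by rw [map_mul, map_inv, Int.units_inv_eq_self]; exact h1)]
      rw [inv_mul_cancel_right]
    · rw [if_neg h1, if_neg (by rw [map_mul, map_inv, Int.units_inv_eq_self, ← hpq]; exact h1)]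
      rw [inv_mul_cancel_right]

theorem psi_pos {p q : Γ} {hpq : ε p = ε q} {g : Γ} (hg : ε g = 1) : psi ε p q hpq g = g * p :=
  if_pos hg

theorem psi_neg {p q : Γ} {hpq : ε p = ε q} {g : Γ} (hg : ε g = -1) : psi ε p q hpq g = g * q :=
  if_neg (by rw [hg]; decide)

theorem psi_eps {p q : Γ} {hpq : ε p = ε q} (g : Γ) : ε (psi ε p q hpq g) = ε g * ε p := by
  rcases un_cases (ε := ε) g with h1 | h1
  · rw [psi_pos h1, map_mul]
  · rw [psi_neg h1, map_mul, hpq]

theorem psi_left {p q : Γ} {hpq : ε p = ε q} {x : Γ} (hx : ε x = 1) (g : Γ) :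
    x * psi ε p q hpq g = psi ε p q hpq (x * g) := by
  rcases un_cases (ε := ε) g with h1 | h1
  · rw [psi_pos h1, psi_pos (by rw [map_mul, hx, h1, one_mul]), mul_assoc]
  · rw [psi_neg h1, psi_neg (by rw [map_mul, hx, h1, one_mul]), mul_assoc]

theorem psi_left' {p q : Γ} {hpq : ε p = ε q} (hp : ε p = 1) (hpq1 : p * q = 1) {x : Γ}
    (hx : ε x = -1) (g : Γ) : x * psi ε p q hpq g = (psi ε p q hpq)⁻¹ (x * g) := by
  have hqp1 : q * p = 1 := by
    have : q = p⁻¹ := (inv_eq_of_mul_eq_one_right hpq1).symm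
    rw [this, inv_mul_cancel]
  have h2 : psi ε p q hpq (x * psi ε p q hpq g) = x * g := by
    rcases un_cases (ε := ε) g with h1 | h1
    · rw [psi_pos h1, psi_neg (by rw [map_mul, map_mul, hx, h1, hp]; decide)]
      rw [mul_assoc, mul_assoc, hpq1, mul_one]
    · rw [psi_neg h1, psi_pos (by rw [map_mul, map_mul, hx, h1, ← hpq, hp]; decide)]
      rw [mul_assoc, mul_assoc, hqp1, mul_one]
  rw [← h2, ias]

theorem dh_one (hD : Dh ε h) : h 1 = 0 := by
  have := hD.coc 1 1
  rw [mul_one, map_one, Units.val_one, one_mul] at this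
  omega

/-- The fibres are finite. -/
theorem fib_fin (hD : Dh ε h) (e : ℤˣ) (v : ℤ) : {g | ε g = e ∧ h g = v}.Finite := by
  rcases Set.eq_empty_or_nonempty {g | ε g = e ∧ h g = v} with h0 | ⟨g0, hg0⟩
  · rw [h0]; exact Set.finite_empty
  · refine (hD.ker.image (fun k => g0 * k)).subset ?_
    rintro g ⟨hg1, hg2⟩
    refine ⟨g0⁻¹ * g, ?_, mul_inv_cancel_left _ _⟩
    have h1 := hD.coc g0 (g0⁻¹ * g)
    rw [mul_inv_cancel_left, hg2, hg0.2] at h1
    have h2 : (ε g0 : ℤ) * h (g0⁻¹ * g) = 0 := by omega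
    have h3 : h (g0⁻¹ * g) = 0 := by
      rcases mul_eq_zero.1 h2 with h4 | h4
      · exact absurd h4 (Units.ne_zero _)
      · exact h4
    refine ⟨?_, h3⟩
    rw [map_mul, map_inv, hg1, hg0.1, inv_mul_cancel]

theorem win_fin (hD : Dh ε h) (y0 H : ℤ) :
    {g | 0 ≤ 4 * h g + (ε g : ℤ) * y0 ∧ 4 * h g + (ε g : ℤ) * y0 < H}.Finite := by
  have hF : (⋃ v ∈ Set.Icc (-(|y0| + |H|)) (|y0| + |H|),
      ({g | ε g = 1 ∧ h g = v} ∪ {g | ε g = -1 ∧ h g = v})).Finite := by
    refine Set.Finite.biUnion (Set.finite_Icc _ _) ?_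
    intro v _
    exact (fib_fin hD 1 v).union (fib_fin hD (-1) v)
  refine hF.subset ?_
  rintro g ⟨h1, h2⟩
  have h3 := neg_abs_le y0
  have h4 := le_abs_self y0
  have h5 := neg_abs_le H
  have h6 := le_abs_self H
  rw [Set.mem_iUnion₂]
  refine ⟨h g, ?_, ?_⟩
  · rcases un_cases (ε := ε) g with h7 | h7
    · rw [h7, Units.val_one] at h1 h2
      exact ⟨by omega, by omega⟩
    · rw [h7, Units.val_neg, Units.val_one] at h1 h2
      exact ⟨by omega, by omega⟩
  · rcases un_cases (ε := ε) g with h7 | h7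
    · exact Or.inl ⟨h7, rfl⟩
    · exact Or.inr ⟨h7, rfl⟩

theorem conn_cay (hS : IsGen S) : Conn (cay S) Set.univ := by
  refine ⟨⟨1, trivial⟩, ?_⟩
  intro A _ hne hcl
  obtain ⟨a, ha⟩ := hne
  have key : ∀ x ∈ Subgroup.closure S, ∀ g, g * x ∈ A ↔ g ∈ A := by
    intro x hx
    induction hx using Subgroup.closure_induction with
    | mem x hx =>
      intro g
      have h1 := cay_adj_mul hS g hx
      exact ⟨fun hg => hcl _ hg g trivial h1.symm, fun hg => hcl g hg _ trivial h1⟩
    | one => intro g; rw [mul_one]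
    | mul x y _ _ hx hy => intro g; rw [← mul_assoc, hy, hx]
    | inv x hx ih =>
      intro g
      have := ih (g * x⁻¹)
      rw [inv_mul_cancel_right] at this
      exact this.symm
  intro y _
  have := (key (a⁻¹ * y) (by rw [hS.1]; trivial) a).2 ha
  rwa [mul_inv_cancel_left] at this

/-- Left multiplication as an automorphism of the Cayley graph. -/
def lm (hS : IsGen S) (x : Γ) : cay S ≃g cay S where
  toEquiv := Equiv.mulLeft x
  map_rel_iff' := by
    intro a b
    show (cay S).Adj (x * a) (x * b) ↔ (cay S).Adj a b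
    rw [cay_adj hS, cay_adj hS]
    have : (x * a)⁻¹ * (x * b) = a⁻¹ * b := by
      rw [mul_inv_rev, mul_assoc, inv_mul_cancel_left]
    rw [this]

theorem lm_apply (hS : IsGen S) (x g : Γ) : lm hS x g = x * g := rfl

/-- The common part of both cases. -/
theorem core (hD : Dh ε h) (hS : IsGen S) (p q c : Γ) (y0 H : ℤ) (d : ℕ) (hH : 0 < H)
    (hp : p ∈ S) (hq : q ∈ S) (hpq : ε p = ε q) (Xp : 4 * h p + (ε p : ℤ) * y0 - y0 = H)
    (Xq : 4 * h q + (ε q : ℤ) * y0 - y0 = -H) (hc : ε c = 1) (hc4 : 4 * h c = d * H)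
    (hd : 1 ≤ d) (hd2 : d ≤ 2)
    (hmax : ∀ u ∈ S, |4 * h u + (ε u : ℤ) * y0 - y0| ≤ H)
    (hcase : (ε p = 1 ∧ p * q = 1) ∨ ε p = -1) :
    ∃ (n m : ℕ) (G : SimpleGraph (ℤ × Fin n)), m ≤ 2 * (n ! * (n * n)) ∧
      Lsys n m G ∧ Nonempty (cay S ≃g G) := by
  obtain ⟨X, hX⟩ : ∃ X : Γ → ℤ, ∀ g, X g = 4 * h g + (ε g : ℤ) * y0 := ⟨_, fun _ => rfl⟩
  have hXm : ∀ g u, X (g * u) = X g + (ε g : ℤ) * (X u - y0) := by
    intro g u
    rw [hX, hX, hX, hD.coc, map_mul, Units.val_mul]
    ring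
  obtain ⟨ψ, hψ⟩ : ∃ ψ, ψ = psi ε p q hpq := ⟨_, rfl⟩
  have hψX : ∀ g, X (ψ g) = X g + H := by
    intro g
    rw [hψ]
    rcases un_cases (ε := ε) g with h1 | h1
    · rw [psi_pos h1, hXm, h1, Units.val_one, one_mul, hX p, Xp]
    · rw [psi_neg h1, hXm, h1, Units.val_neg, Units.val_one, hX q, Xq]
      ring
  have hψz : ∀ (k : ℕ) g, X ((ψ ^ k) g) = X g + k * H := by
    intro k g
    induction k with
    | zero => simp
    | succ k ih => rw [pow_succ', Equiv.Perm.mul_apply, hψX, ih]; push_cast; ring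
  have hψzi : ∀ (a : ℤ) (g : Γ), X ((ψ ^ a) g) = X g + a * H := by
    intro a g
    induction a using Int.induction_on generalizing g with
    | zero => simp
    | succ k ih =>
      rw [zpow_add_one, Equiv.Perm.mul_apply, ih, hψX]; ring
    | pred k ih =>
      rw [zpow_sub_one, Equiv.Perm.mul_apply, ih]
      have := hψX (ψ⁻¹ g)
      rw [ais] at this
      rw [this]; ring
  have hfin : {g | 0 ≤ X g ∧ X g < H}.Finite := by
    have := win_fin hD y0 H
    simp only [← hX] at this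
    exact this
  have hfin' : Finite {g | 0 ≤ X g ∧ X g < H} := hfin.to_subtype
  have hBne : Nonempty {g | 0 ≤ X g ∧ X g < H} := by
    have h1 := Int.emod_add_mul_ediv (X 1) H
    have h2 := Int.emod_nonneg (X 1) hH.ne'
    have h3 := Int.emod_lt_of_pos (X 1) hH
    refine ⟨⟨(ψ ^ (-(X 1 / H))) 1, ?_⟩⟩
    show 0 ≤ X _ ∧ X _ < H
    rw [hψzi]
    have : X 1 / H * H = H * (X 1 / H) := mul_comm _ _
    rw [neg_mul, this]
    exact ⟨by omega, by omega⟩
  have hn : 0 < Nat.card {g | 0 ≤ X g ∧ X g < H} := Nat.card_pos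
  -- the period
  have hLψ : ∀ x : Γ, ε x = 1 → ∀ g, x * ψ g = ψ (x * g) := by
    intro x hx g
    rw [hψ]
    exact psi_left hx g
  have hcX : ∀ g, X (c * g) = X g + d * H := by
    intro g
    rw [hXm, hc, Units.val_one, one_mul, hX c, hc, Units.val_one, one_mul, hc4]
    ring
  obtain ⟨L, hL⟩ : ∃ L : Equiv.Perm Γ, ∀ g, L g = c * g := ⟨Equiv.mulLeft c, fun _ => rfl⟩
  have hcomm : Commute ψ L := by
    ext g
    rw [Equiv.Perm.mul_apply, Equiv.Perm.mul_apply, hL, hL]
    exact (hLψ c hc g).symm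
  obtain ⟨π, hπ⟩ : ∃ π : Equiv.Perm Γ, π = (ψ ^ d)⁻¹ * L := ⟨_, rfl⟩
  have hπX : ∀ g, X (π g) = X g := by
    intro g
    have h1 := hψz d (π g)
    have h2 : (ψ ^ d) (π g) = L g := by
      rw [hπ, Equiv.Perm.mul_apply, ais]
    rw [h2, hL, hcX] at h1
    omega
  have hπψ : Commute π ψ := by
    rw [hπ]
    exact ((Commute.refl ψ).pow_left d).inv_left.mul_left hcomm.symm
  obtain ⟨n, hnn⟩ : ∃ n, n = Nat.card {g | 0 ≤ X g ∧ X g < H} := ⟨_, rfl⟩
  have hπn : π ^ (n !) = 1 := by
    have hB : ∀ g, g ∈ {g | 0 ≤ X g ∧ X g < H} → (π ^ (n !)) g = g := by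
      intro g hg
      let σ : Equiv.Perm {g | 0 ≤ X g ∧ X g < H} := π.subtypePerm (fun g => by
        show (0 ≤ X (π g) ∧ X (π g) < H) ↔ (0 ≤ X g ∧ X g < H)
        rw [hπX])
      have h1 : ∀ k : ℕ, ∀ b, (((σ ^ k) b : {g | 0 ≤ X g ∧ X g < H}) : Γ) = (π ^ k) b.1 := by
        intro k
        induction k with
        | zero => intro b; rfl
        | succ k ih =>
          intro b
          rw [pow_succ, pow_succ, Equiv.Perm.mul_apply, Equiv.Perm.mul_apply, ih]
          rfl
      have h2 : σ ^ (n !) = 1 := by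
        have h3 : Nat.card (Equiv.Perm {g | 0 ≤ X g ∧ X g < H}) = n ! := by
          rw [Nat.card_perm, hnn]
        rw [← h3]
        exact pow_card_eq_one'
      have h4 := h1 (n !) ⟨g, hg⟩
      rw [h2] at h4
      exact h4.symm
    ext g
    have h1 := Int.emod_add_mul_ediv (X g) H
    have h2 := Int.emod_nonneg (X g) hH.ne'
    have h3 := Int.emod_lt_of_pos (X g) hH
    have h4 : (ψ ^ (-(X g / H))) g ∈ {g | 0 ≤ X g ∧ X g < H} := by
      show 0 ≤ X _ ∧ X _ < H
      rw [hψzi]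
      have : X g / H * H = H * (X g / H) := mul_comm _ _
      rw [neg_mul, this]
      exact ⟨by omega, by omega⟩
    have h5 := hB _ h4
    have h6 : Commute (π ^ (n !)) (ψ ^ (-(X g / H))) := (hπψ.zpow_right _).pow_left _
    have h7 : (π ^ (n !)) ((ψ ^ (-(X g / H))) g) = (ψ ^ (-(X g / H))) ((π ^ (n !)) g) := by
      rw [← Equiv.Perm.mul_apply, h6.eq, Equiv.Perm.mul_apply]
    rw [h7] at h5
    rw [(ψ ^ (-(X g / H))).injective h5, Equiv.Perm.one_apply]
  have hLn : ∀ g, (ψ ^ (d * n !)) g = c ^ (n !) * g := by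
    have h1 : (ψ ^ d) * π = L := by rw [hπ, mul_inv_cancel_left]
    have h2 : Commute (ψ ^ d) π := (hπψ.symm).pow_left d
    have h3 : (ψ ^ d) ^ (n !) * π ^ (n !) = L ^ (n !) := by rw [← h2.mul_pow, h1]
    rw [hπn, mul_one, ← pow_mul] at h3
    have h4 : ∀ (k : ℕ) g, (L ^ k) g = c ^ k * g := by
      intro k
      induction k with
      | zero => intro g; simp
      | succ k ih => intro g; rw [pow_succ, pow_succ, Equiv.Perm.mul_apply, ih, hL, mul_assoc]
    intro g
    rw [h3, h4]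
  have hNE : Nonempty Γ := ⟨1⟩
  obtain ⟨G, hG1, hG2⟩ := num (cay S) X H hH ψ hψX hfin (by
      intro g
      rw [hψ]
      rcases un_cases (ε := ε) g with h1 | h1
      · rw [psi_pos h1]; exact cay_adj_mul hS g hp
      · rw [psi_neg h1]; exact cay_adj_mul hS g hq) (by
      intro g g' hgg
      rw [cay_adj hS] at hgg
      have h1 := hXm g (g⁻¹ * g')
      rw [mul_inv_cancel_left] at h1
      have h2 := hmax _ hgg
      rw [← hX] at h2
      rw [h1, add_sub_cancel_left, abs_mul]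
      rcases un_cases (ε := ε) g with h3 | h3
      · rw [h3, Units.val_one, abs_one, one_mul]; exact h2
      · rw [h3, Units.val_neg, Units.val_one, abs_neg, abs_one, one_mul]; exact h2)
    (d * n !) (Nat.mul_pos hd (Nat.factorial_pos n)) (by
      intro g g'
      rw [hLn, hLn, ← lm_apply hS, ← lm_apply hS]
      exact ((lm hS (c ^ (n !))).map_rel_iff').symm) (conn_cay hS) (by
      intro g g'
      rcases hcase with ⟨hp1, hpq1⟩ | hp1
      · refine ⟨lm hS (g' * g⁻¹), ⟨0, by rw [zpow_zero, Equiv.Perm.one_apply, lm_apply,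
          inv_mul_cancel_right]⟩, ?_⟩
        rcases un_cases (ε := ε) (g' * g⁻¹) with h1 | h1
        · left
          intro x
          rw [lm_apply, lm_apply]
          exact hLψ _ h1 x
        · right
          intro x
          rw [lm_apply, lm_apply, hψ]
          exact psi_left' hp1 hpq1 h1 x
      · have h1 : ∀ g : Γ, ∃ i : ℤ, ε ((ψ ^ i) g) = 1 := by
          intro g
          rcases un_cases (ε := ε) g with h1 | h1
          · exact ⟨0, by rw [zpow_zero, Equiv.Perm.one_apply]; exact h1⟩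
          · refine ⟨1, ?_⟩
            rw [zpow_one, hψ, psi_eps, h1, hp1]
            decide
        obtain ⟨i, hi⟩ := h1 g
        obtain ⟨j, hj⟩ := h1 g'
        have h2 : ε ((ψ ^ j) g' * ((ψ ^ i) g)⁻¹) = 1 := by
          rw [map_mul, map_inv, hi, hj, inv_one, mul_one]
        refine ⟨lm hS ((ψ ^ j) g' * ((ψ ^ i) g)⁻¹), ⟨-j + i, ?_⟩, Or.inl fun x => ?_⟩
        · have h3 := semi_zpow ψ ψ (fun x => ((ψ ^ j) g' * ((ψ ^ i) g)⁻¹) * x)
            (fun x => hLψ _ h2 x) i g
          beta_reduce at h3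
          rw [inv_mul_cancel_right] at h3
          rw [zpow_add, Equiv.Perm.mul_apply, lm_apply, ← h3, ← Equiv.Perm.mul_apply, ← zpow_add,
            neg_add_cancel, zpow_zero, Equiv.Perm.one_apply]
        · rw [lm_apply, lm_apply]
          exact hLψ _ h2 x)
  refine ⟨_, _, G, ?_, hG1, hG2⟩
  rw [← hnn] at hn ⊢
  have h1 : 1 ≤ n * n := Nat.mul_pos hn hn
  have h2 : n ! * 1 ≤ n ! * (n * n) := Nat.mul_le_mul_left _ h1
  calc d * n ! ≤ 2 * n ! := Nat.mul_le_mul_right _ hd2
    _ = 2 * (n ! * 1) := by rw [mul_one]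
    _ ≤ 2 * (n ! * (n * n)) := Nat.mul_le_mul_left _ h2

/-- **DIH.** -/
theorem dih : Pool.Agent.Helper61.NW.DihStmt.{u} := by
  intro Γ _ ε h S hD hS hfin
  have hT : ({u | u ∈ S ∧ ε u = -1}).Nonempty := by
    by_contra hcon
    rw [Set.not_nonempty_iff_eq_empty] at hcon
    obtain ⟨u, hu⟩ := hD.neg
    have h0 : ∀ g, ε g = 1 := by
      have h1 : Subgroup.closure S ≤ ε.ker := by
        rw [Subgroup.closure_le]
        intro s hs
        rcases un_cases (ε := ε) s with h2 | h2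
        · exact h2
        · have h3 : s ∈ {u | u ∈ S ∧ ε u = -1} := ⟨hs, h2⟩
          rw [hcon] at h3
          exact h3.elim
      rw [hS.1] at h1
      intro g
      exact h1 trivial
    rw [h0 u] at hu
    exact absurd hu (by decide)
  have hTf : ({u | u ∈ S ∧ ε u = -1}).Finite := hfin.subset (fun u hu => hu.1)
  obtain ⟨t, ht, htm⟩ := Set.exists_max_image _ h hTf hT
  obtain ⟨r, hr, hrm⟩ := Set.exists_min_image _ h hTf hT
  have htr : h r ≤ h t := htm r hr
  have hTX : ∀ u ∈ S, ε u = -1 →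
      |4 * h u + (ε u : ℤ) * (h t + h r) - (h t + h r)| ≤ 2 * (h t - h r) := by
    intro u hu hu1
    have h1 := htm u ⟨hu, hu1⟩
    have h2 := hrm u ⟨hu, hu1⟩
    rw [hu1, Units.val_neg, Units.val_one, abs_le]
    constructor <;> omega
  by_cases hA : ∃ s ∈ S, ε s = 1 ∧ 2 * (h t - h r) ≤ 4 * |h s| ∧ 0 < |h s| ∧
      ∀ u ∈ S, ε u = 1 → |h u| ≤ |h s|
  · obtain ⟨s, hs, hs1, hs2, hs3, hs4⟩ := hA
    obtain ⟨s', hs', hs1', hs2'⟩ : ∃ s' ∈ S, ε s' = 1 ∧ h s' = |h s| := by
      rcases abs_cases (h s) with ⟨h1, _⟩ | ⟨h1, _⟩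
      · exact ⟨s, hs, hs1, h1.symm⟩
      · refine ⟨s⁻¹, hS.2.1 s hs, by rw [map_inv, hs1, inv_one], ?_⟩
        have h2 := hD.coc s s⁻¹
        rw [mul_inv_cancel, dh_one hD, hs1, Units.val_one, one_mul] at h2
        omega
    have hinv : h s'⁻¹ = - h s' := by
      have h2 := hD.coc s' s'⁻¹
      rw [mul_inv_cancel, dh_one hD, hs1', Units.val_one, one_mul] at h2
      omega
    have hei : ε s'⁻¹ = 1 := by rw [map_inv, hs1', inv_one]
    refine core hD hS s' s'⁻¹ s' (h t + h r) (4 * |h s|) 1 (by omega) hs' (hS.2.1 s' hs')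
      (by rw [hs1', hei]) ?_ ?_ hs1' ?_ le_rfl (by omega) ?_ (Or.inl ⟨hs1', mul_inv_cancel _⟩)
    · rw [hs1', Units.val_one, hs2']; ring
    · rw [hei, Units.val_one, hinv, hs2']; ring
    · rw [hs2']; push_cast; ring
    · intro u hu
      rcases un_cases (ε := ε) u with h1 | h1
      · have h2 := hs4 u hu h1
        have h3 : |4 * h u| = 4 * |h u| := by
          rw [abs_mul]; rfl
        rw [h1, Units.val_one, one_mul, add_sub_cancel_right, h3]
        omega
      · exact (hTX u hu h1).trans hs2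
  · have hP : ∀ u ∈ S, ε u = 1 → 4 * |h u| ≤ 2 * (h t - h r) := by
      intro u hu hu1
      have hPf : ({u | u ∈ S ∧ ε u = 1}).Finite := hfin.subset (fun u hu => hu.1)
      obtain ⟨s, hs, hsm⟩ := Set.exists_max_image _ (fun u => |h u|) hPf ⟨u, hu, hu1⟩
      have h1 := hsm u ⟨hu, hu1⟩
      beta_reduce at h1
      by_contra hcon
      have h2 := abs_nonneg (h u)
      exact hA ⟨s, hs.1, hs.2, by omega, by omega, fun v hv hv1 => hsm v ⟨hv, hv1⟩⟩
    have hall : ∀ u ∈ S, |4 * h u + (ε u : ℤ) * (h t + h r) - (h t + h r)| ≤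
        2 * (h t - h r) := by
      intro u hu
      rcases un_cases (ε := ε) u with h1 | h1
      · have h2 := hP u hu h1
        have h3 : |4 * h u| = 4 * |h u| := by
          rw [abs_mul]; rfl
        rw [h1, Units.val_one, one_mul, add_sub_cancel_right, h3]
        exact h2
      · exact hTX u hu h1
    have hpos : 0 < h t - h r := by
      by_contra hcon
      have h0 : 2 * (h t - h r) = 0 := by omega
      obtain ⟨y, hy⟩ : ∃ y, y = h t + h r := ⟨_, rfl⟩
      rw [h0, ← hy] at hall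
      have key : ∀ x ∈ Subgroup.closure S, 4 * h x + (ε x : ℤ) * y = y := by
        intro x hx
        induction hx using Subgroup.closure_induction with
        | mem x hx =>
          have h1 := hall x hx
          rw [abs_nonpos_iff] at h1
          omega
        | one => rw [dh_one hD, map_one, Units.val_one]; ring
        | mul a b _ _ ha hb =>
          rw [hD.coc, map_mul, Units.val_mul]
          have : 4 * (h a + (ε a : ℤ) * h b) + (ε a : ℤ) * (ε b : ℤ) * y =
            4 * h a + (ε a : ℤ) * (4 * h b + (ε b : ℤ) * y) := by ring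
          rw [this, hb, ha]
        | inv x _ hx =>
          have h2 := hD.coc x x⁻¹
          rw [mul_inv_cancel, dh_one hD] at h2
          rw [map_inv, Int.units_inv_eq_self]
          rcases un_cases (ε := ε) x with h1 | h1
          · rw [h1, Units.val_one] at h2 hx ⊢
            omega
          · rw [h1, Units.val_neg, Units.val_one] at h2 hx ⊢
            omega
      obtain ⟨g, hg1, hg2⟩ := hD.unb
      have h1 := key g (by rw [hS.1]; trivial)
      rw [hg1, Units.val_one] at h1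
      omega
    refine core hD hS t r (t * r) (h t + h r) (2 * (h t - h r)) 2 (by omega) ht.1 hr.1
      (by rw [ht.2, hr.2]) ?_ ?_ ?_ ?_ (by omega) le_rfl hall (Or.inr ht.2)
    · rw [ht.2, Units.val_neg, Units.val_one]; ring
    · rw [hr.2, Units.val_neg, Units.val_one]; ring
    · rw [map_mul, ht.2, hr.2]; decide
    · rw [hD.coc, ht.2, Units.val_neg, Units.val_one]; push_cast; ring

end Pool.Agent.Helper69.NW
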