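import Pool.Agent.Helper61.NW.Goals2

set_option autoImplicit false

namespace Pool.Agent.Helper69.NW

open Pool.Agent.Helper52.Wq2 Pool.Agent.Helper61.NW

universe u

theorem ais {V : Type u} (φ : Equiv.Perm V) (x : V) : φ (φ⁻¹ x) = x := φ.apply_symm_apply x

theorem ias {V : Type u} (φ : Equiv.Perm V) (x : V) : φ⁻¹ (φ x) = x := φ.symm_apply_apply x

theorem semi_zpow {V : Type u} (φ ψ : Equiv.Perm V) (f : V → V) (h : ∀ x, f (φ x) = ψ (f x))
    (a : ℤ) (x : V) : f ((φ ^ a) x) = (ψ ^ a) (f x) := by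
  have hinv : ∀ x, f (φ⁻¹ x) = ψ⁻¹ (f x) := by
    intro x
    have := h (φ⁻¹ x)
    rw [ais] at this
    rw [this, ias]
  induction a using Int.induction_on generalizing x with
  | zero => simp
  | succ n ih =>
    rw [zpow_add_one, zpow_add_one, Equiv.Perm.mul_apply, Equiv.Perm.mul_apply, ih, h]
  | pred n ih =>
    rw [zpow_sub_one, zpow_sub_one, Equiv.Perm.mul_apply, Equiv.Perm.mul_apply, ih, hinv]

/-- **NUM.** Numbering: orbits of a permutation `φ` which raises the height `X` by `H`. -/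
theorem num {V : Type u} [Nonempty V] (G0 : SimpleGraph V) (X : V → ℤ) (H : ℤ) (hH : 0 < H)
    (φ : Equiv.Perm V) (hφ : ∀ g, X (φ g) = X g + H) (fin : {g | 0 ≤ X g ∧ X g < H}.Finite)
    (adj : ∀ g, G0.Adj g (φ g)) (near : ∀ g g', G0.Adj g g' → |X g' - X g| ≤ H)
    (m : ℕ) (hm : 0 < m) (per : ∀ g g', G0.Adj g g' ↔ G0.Adj ((φ ^ m) g) ((φ ^ m) g'))
    (conn : Conn G0 Set.univ)
    (trans : ∀ g g', ∃ f : G0 ≃g G0, (∃ i : ℤ, (φ ^ i) (f g) = g') ∧
      ((∀ x, f (φ x) = φ (f x)) ∨ ∀ x, f (φ x) = φ⁻¹ (f x))) :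
    ∃ G : SimpleGraph (ℤ × Fin (Nat.card {g | 0 ≤ X g ∧ X g < H})),
      Lsys (Nat.card {g | 0 ≤ X g ∧ X g < H}) m G ∧ Nonempty (G0 ≃g G) := by
  have hfin : Finite {g | 0 ≤ X g ∧ X g < H} := fin.to_subtype
  obtain ⟨n, hn⟩ : ∃ n, n = Nat.card {g | 0 ≤ X g ∧ X g < H} := ⟨_, rfl⟩
  rw [← hn]
  have hcard : Nat.card {g | 0 ≤ X g ∧ X g < H} = n := hn.symm
  let q : {g | 0 ≤ X g ∧ X g < H} ≃ Fin n := Finite.equivFinOfCardEq hcard
  have hXz : ∀ (a : ℤ) (g : V), X ((φ ^ a) g) = X g + a * H := by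
    intro a g
    induction a using Int.induction_on generalizing g with
    | zero => simp
    | succ k ih =>
      rw [zpow_add_one, Equiv.Perm.mul_apply, ih, hφ]; ring
    | pred k ih =>
      rw [zpow_sub_one, Equiv.Perm.mul_apply, ih]
      have := hφ (φ⁻¹ g)
      rw [ais] at this
      rw [this]; ring
  let b : Fin n → V := fun k => (q.symm k).1
  have hb : ∀ k, 0 ≤ X (b k) ∧ X (b k) < H := fun k => (q.symm k).2
  have hbij : Function.Bijective (fun u : ℤ × Fin n => (φ ^ u.1) (b u.2)) := by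
    constructor
    · rintro ⟨a, k⟩ ⟨a', k'⟩ he
      simp only at he
      have h1 := congrArg X he
      rw [hXz, hXz] at h1
      have h2 := hb k
      have h3 := hb k'
      have h4 : (a - a') * H < 1 * H := by
        rw [sub_mul, one_mul]; omega
      have h5 : (-1) * H < (a - a') * H := by
        rw [sub_mul]; omega
      have h6 := lt_of_mul_lt_mul_right h4 hH.le
      have h7 := lt_of_mul_lt_mul_right h5 hH.le
      have h8 : a = a' := by omega
      subst h8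
      have h9 : b k = b k' := (φ ^ a).injective he
      have h10 : q.symm k = q.symm k' := Subtype.ext h9
      rw [q.symm.injective h10]
    · intro g
      have h1 := Int.emod_add_mul_ediv (X g) H
      have h2 := Int.emod_nonneg (X g) hH.ne'
      have h3 := Int.emod_lt_of_pos (X g) hH
      have h4 : X ((φ ^ (-(X g / H))) g) = X g % H := by
        rw [hXz]
        have : X g / H * H = H * (X g / H) := mul_comm _ _
        rw [neg_mul, this]; omega
      refine ⟨(X g / H, q ⟨(φ ^ (-(X g / H))) g, by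
        show 0 ≤ X _ ∧ X _ < H
        rw [h4]; exact ⟨h2, h3⟩⟩), ?_⟩
      show (φ ^ (X g / H)) ((q.symm (q _)).1) = g
      rw [Equiv.symm_apply_apply]
      show (φ ^ (X g / H)) ((φ ^ (-(X g / H))) g) = g
      rw [← Equiv.Perm.mul_apply, ← zpow_add, add_neg_cancel, zpow_zero, Equiv.Perm.one_apply]
  let Ψ : ℤ × Fin n ≃ V := Equiv.ofBijective _ hbij
  have hΨ : ∀ a k, Ψ (a, k) = (φ ^ a) (b k) := fun _ _ => rfl
  have hΨz : ∀ (i a : ℤ) k, (φ ^ i) (Ψ (a, k)) = Ψ (i + a, k) := by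
    intro i a k
    rw [hΨ, hΨ, zpow_add, Equiv.Perm.mul_apply]
  refine ⟨G0.comap Ψ, ?_, ⟨(SimpleGraph.Iso.comap Ψ G0).symm⟩⟩
  have hadj : ∀ u v, (G0.comap Ψ).Adj u v ↔ G0.Adj (Ψ u) (Ψ v) := fun _ _ => Iff.rfl
  refine ⟨?_, hm, ?_, ?_, ?_, ?_, ?_⟩
  · obtain ⟨g⟩ := ‹Nonempty V›
    exact Fin.pos (Ψ.symm g).2
  · intro a j
    rw [hadj]
    have h1 := hΨz 1 a j
    rw [zpow_one, add_comm] at h1
    rw [← h1]
    exact adj _
  · intro a c i j h
    rw [hadj] at h
    have h1 := near _ _ h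
    rw [hΨ, hΨ, hXz, hXz, abs_le] at h1
    have h2 := hb i
    have h3 := hb j
    have h4 : (a - c) * H < 2 * H := by
      rw [sub_mul]; omega
    have h5 : (-2) * H < (a - c) * H := by
      rw [sub_mul]; omega
    have h6 := lt_of_mul_lt_mul_right h4 hH.le
    have h7 := lt_of_mul_lt_mul_right h5 hH.le
    rw [abs_le]
    omega
  · intro a c i j
    rw [hadj, hadj, per]
    have h1 : ∀ (x : ℤ) k, (φ ^ m) (Ψ (x, k)) = Ψ (x + m, k) := by
      intro x k
      have := hΨz m x k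
      rw [zpow_natCast, add_comm] at this
      exact this
    rw [h1, h1]
  · have h1 := conn.image (G' := G0.comap Ψ) Ψ.symm (fun x _ y _ hxy => Or.inr (by
      rw [hadj, Equiv.apply_symm_apply, Equiv.apply_symm_apply]; exact hxy))
    rwa [Set.image_univ, Ψ.symm.surjective.range_eq] at h1
  · intro i j
    obtain ⟨f, ⟨t, ht⟩, hf⟩ := trans (Ψ (0, i)) (Ψ (0, j))
    obtain ⟨e, he, hfe⟩ : ∃ e : ℤ, (e = 1 ∨ e = -1) ∧ ∀ (a : ℤ) x, f ((φ ^ a) x) =
        (φ ^ (e * a)) (f x) := by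
      rcases hf with hf | hf
      · refine ⟨1, Or.inl rfl, fun a x => ?_⟩
        rw [one_mul]
        exact semi_zpow φ φ f hf a x
      · refine ⟨-1, Or.inr rfl, fun a x => ?_⟩
        rw [semi_zpow φ φ⁻¹ f hf a x, inv_zpow', neg_one_mul]
    obtain ⟨c, hc⟩ : ∃ c : Fin n → ℤ, ∀ k, c k = (Ψ.symm (f (Ψ (0, k)))).1 := ⟨_, fun _ => rfl⟩
    obtain ⟨τ, hτ⟩ : ∃ τ : Fin n → Fin n, ∀ k, τ k = (Ψ.symm (f (Ψ (0, k)))).2 :=
      ⟨_, fun _ => rfl⟩
    have h0 : ∀ k, f (Ψ (0, k)) = Ψ (c k, τ k) := by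
      intro k
      have : (c k, τ k) = Ψ.symm (f (Ψ (0, k))) := by rw [hc, hτ]
      rw [this, Equiv.apply_symm_apply]
    have h1 : ∀ a k, f (Ψ (a, k)) = Ψ (e * a + c k, τ k) := by
      intro a k
      have h2 : Ψ (a, k) = (φ ^ a) (Ψ (0, k)) := by rw [hΨz, add_zero]
      rw [h2, hfe, h0, hΨz]
    have hτs : Function.Surjective τ := by
      intro k'
      obtain ⟨⟨a, k⟩, hk⟩ := Ψ.surjective (f.symm (Ψ (0, k')))
      refine ⟨k, ?_⟩
      have h2 := h1 a k
      rw [hk] at h2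
      have h3 : f (f.symm (Ψ (0, k'))) = Ψ (0, k') := f.apply_symm_apply _
      rw [h3] at h2
      have h4 := Ψ.injective h2
      exact (congrArg Prod.snd h4).symm
    have hτb : Function.Bijective τ := Finite.surjective_iff_bijective.1 hτs
    refine ⟨((SimpleGraph.Iso.comap Ψ G0).trans f).trans (SimpleGraph.Iso.comap Ψ G0).symm,
      Equiv.ofBijective τ hτb, e, c, he, ?_, ?_⟩
    · show τ i = j
      have h2 := h0 i
      rw [h2, hΨz] at ht
      exact congrArg Prod.snd (Ψ.injective ht)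
    · intro a k
      show Ψ.symm (f (Ψ (a, k))) = (e * a + c k, τ k)
      rw [h1, Equiv.symm_apply_apply]

end Pool.Agent.Helper69.NW
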